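import Pool.Agent.MWL.Stmts

/-! Squad MWL (MP_23468a_al), row JFC: join and meet are functorial congruences. -/

set_option autoImplicit false

namespace Pool.Agent.MWL.H69

open Pool.Agent.MVO Pool.Agent.MWL

/-- the join -/
def join (R S : FC) : FC where
  R := fun k a b => Jn R S k a b
  refl := fun _ _ => Relation.ReflTransGen.refl
  symm := by
    intro k a b h
    induction h with
    | refl => exact Relation.ReflTransGen.refl
    | tail _ hbc ih =>
      refine Relation.ReflTransGen.head ?_ ih
      rcases hbc with h | h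
      · exact Or.inl (R.symm h)
      · exact Or.inr (S.symm h)
  trans := fun h h' => Relation.ReflTransGen.trans h h'
  ext := by
    intro k a a' b b' ha hb h
    have h1 : R.R k a' a := R.ext ha (fun _ _ => rfl) (R.refl k a)
    have h2 : R.R k b b' := R.ext (fun _ _ => rfl) hb (R.refl k b)
    exact Relation.ReflTransGen.tail (Relation.ReflTransGen.head (Or.inl h1) h) (Or.inl h2)
  add := by
    intro k a b d h
    induction h with
    | refl => exact Relation.ReflTransGen.refl
    | tail _ hbc ih =>
      refine Relation.ReflTransGen.tail ih ?_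
      rcases hbc with h | h
      · exact Or.inl (R.add d h)
      · exact Or.inr (S.add d h)
  push := by
    intro k a b k' f hf h
    induction h with
    | refl => exact Relation.ReflTransGen.refl
    | tail _ hbc ih =>
      refine Relation.ReflTransGen.tail ih ?_
      rcases hbc with h | h
      · exact Or.inl (R.push k' f hf h)
      · exact Or.inr (S.push k' f hf h)

/-- the meet -/
def meet (R S : FC) : FC where
  R := fun k a b => R.R k a b ∧ S.R k a b
  refl := fun k a => ⟨R.refl k a, S.refl k a⟩
  symm := fun h => ⟨R.symm h.1, S.symm h.2⟩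
  trans := fun h h' => ⟨R.trans h.1 h'.1, S.trans h.2 h'.2⟩
  ext := fun ha hb h => ⟨R.ext ha hb h.1, S.ext ha hb h.2⟩
  add := fun d h => ⟨R.add d h.1, S.add d h.2⟩
  push := fun k' f hf h => ⟨R.push k' f hf h.1, S.push k' f hf h.2⟩

/-- Row JFC. -/
theorem jfc (h1 : RmvStmt) : JfcStmt := by
  intro R S
  refine ⟨⟨join R S, fun _ _ _ => Iff.rfl⟩, ⟨meet R S, fun _ _ _ => Iff.rfl⟩, ?_⟩
  intro n d m d' m' hR hS hD hD' k a b hJ
  induction hJ with
  | refl => exact ⟨fun _ _ => Nat.ModEq.refl _, Nat.ModEq.refl _⟩
  | tail _ hbc ih =>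
    rcases hbc with h | h
    · have h2 := (h1 n R d m hR hD k _).2.2 _ h
      refine ⟨fun j hj => (ih.1 j hj).trans ?_, ih.2.trans ?_⟩
      · exact (h2.1 j hj).of_dvd (Nat.gcd_dvd_left m m')
      · exact h2.2.of_dvd (Nat.gcd_dvd_left d d')
    · have h2 := (h1 n S d' m' hS hD' k _).2.2 _ h
      refine ⟨fun j hj => (ih.1 j hj).trans ?_, ih.2.trans ?_⟩
      · exact (h2.1 j hj).of_dvd (Nat.gcd_dvd_right m m')
      · exact h2.2.of_dvd (Nat.gcd_dvd_right d d')

end Pool.Agent.MWL.H69
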